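import Pool.Agent.Helper49.Gr.Final
import Pool.Agent.Helper41.GrCH
import Pool.Agent.Helper51.MA.LS
import Pool.Agent.Helper52.MA.Main
import Pool.Agent.Helper52.MA.MainCH

/-!
# `k`-spaces and countably tight spaces with `l*(X) = ω`: the Grothendieck property is undecidable

Under CH there is a first countable Tychonoff space (hence a `k`-space of countable tightness) all
of whose finite powers are Lindelöf and which is not Grothendieck; under `MA_{ℵ₁}` every
`k`-space and every countably tight space with all finite powers Lindelöf is Grothendieck. Both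
axioms hold in countable transitive models of ZFC.
-/

set_option autoImplicit false

open Cardinal Topology Filter Set

namespace Pool.Agent.Results.MP_5106fb_gt.Undecidable

open Pool.Agent.Helper49.Gr Pool.Agent.Helper52.MA Pool.Agent.Helper32.HB

/-- First countable Hausdorff spaces are `k`-spaces. -/
lemma kSpace_of_firstCountable (X : Type) [TopologicalSpace X] [T2Space X]
    [FirstCountableTopology X] : KSpace X := by
  intro s hs
  apply IsSeqClosed.isClosed
  intro x p hx hp
  have hK : IsCompact (insert p (range x)) := hp.isCompact_insert_range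
  have hcl := hs _ hK
  have hmem : p ∈ closure (s ∩ insert p (range x)) :=
    mem_closure_of_tendsto hp
      (Eventually.of_forall fun n => ⟨hx n, mem_insert_of_mem _ ⟨n, rfl⟩⟩)
  rw [hcl.closure_eq] at hmem
  exact hmem.1

/-- First countable spaces have countable tightness. -/
lemma countablyTight_of_firstCountable (X : Type) [TopologicalSpace X]
    [FirstCountableTopology X] : CountablyTight X := by
  intro s x hx
  obtain ⟨u, hu, hux⟩ := mem_closure_iff_seq_limit.mp hx
  exact ⟨range u, range_subset_iff.mpr hu, countable_range u,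
    mem_closure_of_tendsto hux (Eventually.of_forall fun n => ⟨n, rfl⟩)⟩

/-- **Undecidability of both questions.** -/
theorem result :
    ((𝔠 : Cardinal.{0}) = ℵ₁ → ∃ (X : Type) (_ : TopologicalSpace X), T35Space X ∧
      FirstCountableTopology X ∧ KSpace X ∧ CountablyTight X ∧ LindelofPowers X ∧
      ¬ Grothendieck X) ∧
    (∃ M : Set ZFSet.{0}, M.Countable ∧ IsTransModelZFC M ∧ CHModel M) ∧
    (∀ (Ω : Type) [LinearOrder Ω] [WellFoundedLT Ω],
      (∀ s : Set Ω, s.Countable → ∃ b, ∀ x ∈ s, x < b) → (∀ b : Ω, (Iio b).Countable) →
      #Ω = ℵ₁ → MASentence Ω (fun x y => x < y) Set.univ Set.univ →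
      ∀ (X : Type) [TopologicalSpace X] [T35Space X],
        LindelofPowers X → (KSpace X ∨ CountablyTight X) → Grothendieck X) ∧
    (∃ M : Set ZFSet.{0}, M.Countable ∧ IsTransModelZFC M ∧ MAModel M) := by
  refine ⟨fun h => ?_, exists_ch_model, fun Ω _ _ hb hI hc hMA X _ _ hL hX => ?_, exists_ma_model⟩
  · obtain ⟨X, inst, h1, h2, h3, h4⟩ := Pool.Agent.Helper41.GrCH.ch_example h
    exact ⟨X, inst, h1, h2, kSpace_of_firstCountable X, countablyTight_of_firstCountable X, h3, h4⟩
  · exact ma_grothendieck (show MartinAxiomAlephOne from ma1_of_sentence Ω hb hI hc hMA) hL hX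

end Pool.Agent.Results.MP_5106fb_gt.Undecidable
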